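import Pool.Agent.W368.WR.Field
import Pool.Agent.W287.WR.Perman

/-!
Endotactic systems: the field points inward at the bodies of `W712.WR.MainStm`.
-/

set_option autoImplicit false

namespace Pool.Agent.TH310.Endo

open Finset W712.WR Pool.Agent.W368.WR

variable {n : ℕ}

/-- inward domination, the form of the endotactic condition used here (`w` replaced by `-w`) -/
def EndoP (E : Finset ((Fin n → ℝ) × (Fin n → ℝ))) : Prop :=
  ∀ w : Fin n → ℝ, ∀ e ∈ E, dp w e.1 < dp w e.2 →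
    ∃ e' ∈ E, dp w e'.2 < dp w e'.1 ∧ dp w e.1 < dp w e'.1

/-- weakly reversible edge sets are endotactic -/
theorem EndoP_of_wr (E : Finset ((Fin n → ℝ) × (Fin n → ℝ)))
    (hE : ∀ e ∈ E, Relation.ReflTransGen (fun u v => (u, v) ∈ E) e.2 e.1) : EndoP E := by
  intro w e he hlt
  obtain ⟨u, v, huv, hu, hv⟩ := path_cross (fun u v => (u, v) ∈ E) (fun s => dp w s) (dp w e.1)
    e.2 e.1 (hE e he) hlt le_rfl
  exact ⟨(u, v), huv, lt_of_le_of_lt hv hu, hu⟩

lemma key (E : Finset ((Fin n → ℝ) × (Fin n → ℝ))) (hE : EndoP E) (ε : ℝ) (hε : 0 < ε)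
    (w x : Fin n → ℝ) (k : (Fin n → ℝ) × (Fin n → ℝ) → ℝ)
    (hk : ∀ e ∈ E, ε ≤ k e ∧ k e ≤ 1 / ε) (hx : ∀ j, 0 < x j) (δ Cw cw : ℝ) (hcw : 0 < cw)
    (hCw : ∀ e ∈ E, |dp w e.2 - dp w e.1| ≤ Cw)
    (hcw' : ∀ e ∈ E, dp w e.2 - dp w e.1 ≠ 0 → cw ≤ |dp w e.2 - dp w e.1|)
    (hdir : ∀ e ∈ E, ∀ e' ∈ E, dp w e.1 < dp w e'.1 → mon e.1 x * Real.exp δ ≤ mon e'.1 x)
    (hne : ∃ e ∈ E, dp w e.2 - dp w e.1 ≠ 0) :
    ∃ e ∈ E, ∑ j, w j * fld E k x j ≤
      -(mon e.1 x * min (ε * cw) (Real.exp δ * ε * cw - (E.card : ℝ) * Cw / ε)) := by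
  classical
  by_cases hP : (E.filter fun e => dp w e.1 < dp w e.2).Nonempty
  swap
  · rw [Finset.not_nonempty_iff_eq_empty, Finset.filter_eq_empty_iff] at hP
    obtain ⟨e, he, hne⟩ := hne
    refine ⟨e, he, ?_⟩
    rw [dp_fld, ← Finset.add_sum_erase _ _ he]
    have hm0 : 0 < mon e.1 x := mon_pos _ _ hx
    have h1 : dp w e.2 - dp w e.1 < 0 := by
      have := not_lt.1 (hP he)
      exact lt_of_le_of_ne (by linarith) hne
    have h2 := hcw' e he hne
    rw [abs_of_neg h1] at h2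
    have h3 : ∑ e' ∈ E.erase e, k e' * mon e'.1 x * (dp w e'.2 - dp w e'.1) ≤ 0 := by
      refine Finset.sum_nonpos fun e' he' => ?_
      have h5 := Finset.mem_of_mem_erase he'
      have h6 : 0 < mon e'.1 x := mon_pos _ _ hx
      have h7 : 0 ≤ k e' := hε.le.trans (hk e' h5).1
      exact mul_nonpos_of_nonneg_of_nonpos (mul_nonneg h7 h6.le)
        (sub_nonpos.2 (not_lt.1 (hP h5)))
    have h4 : mon e.1 x * (ε * cw) ≤ k e * mon e.1 x * (-(dp w e.2 - dp w e.1)) := by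
      calc mon e.1 x * (ε * cw) = (ε * mon e.1 x) * cw := by ring
        _ ≤ (k e * mon e.1 x) * (-(dp w e.2 - dp w e.1)) :=
          mul_le_mul (mul_le_mul_of_nonneg_right (hk e he).1 hm0.le) h2 hcw.le
            (mul_nonneg (hε.le.trans (hk e he).1) hm0.le)
    have h5 : mon e.1 x * min (ε * cw) (Real.exp δ * ε * cw - (E.card : ℝ) * Cw / ε) ≤
        mon e.1 x * (ε * cw) := mul_le_mul_of_nonneg_left (min_le_left _ _) hm0.le
    have h6 : k e * mon e.1 x * (dp w e.2 - dp w e.1) =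
        -(k e * mon e.1 x * (-(dp w e.2 - dp w e.1))) := by ring
    linarith
  obtain ⟨e, he, hmax⟩ := Finset.exists_max_image _ (fun e => mon e.1 x) hP
  rw [Finset.mem_filter] at he
  obtain ⟨heE, hepos⟩ := he
  refine ⟨e, heE, ?_⟩
  obtain ⟨⟨u, v⟩, huv, hlt, hu⟩ := hE w e heE hepos
  simp only at hlt hu
  have hCw0 : 0 ≤ Cw := (abs_nonneg _).trans (hCw e heE)
  have hm0 : 0 < mon e.1 x := mon_pos _ _ hx
  rw [dp_fld, ← Finset.sum_filter_add_sum_filter_not E (fun e => dp w e.1 < dp w e.2)]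
  have h1 : ∑ e' ∈ E.filter (fun e => dp w e.1 < dp w e.2),
      k e' * mon e'.1 x * (dp w e'.2 - dp w e'.1) ≤ mon e.1 x * ((E.card : ℝ) * Cw / ε) := by
    have h2 : ∀ e' ∈ E.filter (fun e => dp w e.1 < dp w e.2),
        k e' * mon e'.1 x * (dp w e'.2 - dp w e'.1) ≤ mon e.1 x * (Cw / ε) := by
      intro e' he'
      have h3 := hmax e' he'
      rw [Finset.mem_filter] at he'
      have h4 := hk e' he'.1
      have h5 := (le_abs_self _).trans (hCw e' he'.1)
      have h6 : 0 < mon e'.1 x := mon_pos _ _ hx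
      calc k e' * mon e'.1 x * (dp w e'.2 - dp w e'.1)
          ≤ (1 / ε * mon e.1 x) * Cw := by
            refine mul_le_mul (mul_le_mul h4.2 h3 h6.le (by positivity)) h5
              (sub_nonneg.2 he'.2.le) (by positivity)
        _ = mon e.1 x * (Cw / ε) := by ring
    refine (Finset.sum_le_card_nsmul _ _ _ h2).trans ?_
    rw [nsmul_eq_mul]
    have h3 : (((E.filter fun e => dp w e.1 < dp w e.2).card : ℕ) : ℝ) ≤ (E.card : ℝ) := by
      exact_mod_cast Finset.card_filter_le _ _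
    calc (((E.filter fun e => dp w e.1 < dp w e.2).card : ℕ) : ℝ) * (mon e.1 x * (Cw / ε))
        ≤ (E.card : ℝ) * (mon e.1 x * (Cw / ε)) :=
          mul_le_mul_of_nonneg_right h3 (by positivity)
      _ = mon e.1 x * ((E.card : ℝ) * Cw / ε) := by ring
  have h2 : ∑ e' ∈ E.filter (fun e => ¬ dp w e.1 < dp w e.2),
      k e' * mon e'.1 x * (dp w e'.2 - dp w e'.1) ≤ -(mon e.1 x * (Real.exp δ * ε * cw)) := by
    have h3 : (u, v) ∈ E.filter (fun e => ¬ dp w e.1 < dp w e.2) :=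
      Finset.mem_filter.2 ⟨huv, not_lt.2 hlt.le⟩
    rw [← Finset.add_sum_erase _ _ h3]
    have h4 : ∑ e' ∈ (E.filter (fun e => ¬ dp w e.1 < dp w e.2)).erase (u, v),
        k e' * mon e'.1 x * (dp w e'.2 - dp w e'.1) ≤ 0 := by
      refine Finset.sum_nonpos fun e' he' => ?_
      have h5 := Finset.mem_filter.1 (Finset.mem_of_mem_erase he')
      have h6 : 0 < mon e'.1 x := mon_pos _ _ hx
      have h7 : 0 ≤ k e' := hε.le.trans (hk e' h5.1).1
      exact mul_nonpos_of_nonneg_of_nonpos (mul_nonneg h7 h6.le)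
        (sub_nonpos.2 (not_lt.1 h5.2))
    have h5 : dp w v - dp w u < 0 := by linarith
    have h6 := hcw' (u, v) huv h5.ne
    simp only at h6
    rw [abs_of_neg h5] at h6
    have h7 := hdir e heE (u, v) huv hu
    simp only at h7
    have h8 := (hk (u, v) huv).1
    have h9 : mon e.1 x * (Real.exp δ * ε * cw) ≤ k (u, v) * mon u x * (-(dp w v - dp w u)) := by
      calc mon e.1 x * (Real.exp δ * ε * cw) = (ε * (mon e.1 x * Real.exp δ)) * cw := by ring
        _ ≤ (k (u, v) * mon u x) * (-(dp w v - dp w u)) := by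
          have h10 : 0 ≤ mon e.1 x * Real.exp δ := by positivity
          exact mul_le_mul (mul_le_mul h8 h7 h10 (hε.le.trans h8)) h6 hcw.le
            (mul_nonneg (hε.le.trans h8) (h10.trans h7))
    have h10 : k (u, v) * mon u x * (dp w v - dp w u) =
        -(k (u, v) * mon u x * (-(dp w v - dp w u))) := by ring
    simp only
    linarith
  calc _ ≤ mon e.1 x * ((E.card : ℝ) * Cw / ε) + -(mon e.1 x * (Real.exp δ * ε * cw)) :=
        add_le_add h1 h2
    _ = -(mon e.1 x * (Real.exp δ * ε * cw - (E.card : ℝ) * Cw / ε)) := by ring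
    _ ≤ _ := neg_le_neg (mul_le_mul_of_nonneg_left (min_le_right _ _) hm0.le)

/-- The bodies provided by `MainStm` absorb every endotactic system with rates in
`[ε, 1/ε]`. -/
theorem field_endo (hMain : MainStm) (E : Finset ((Fin n → ℝ) × (Fin n → ℝ))) (hE : EndoP E)
    (ε : ℝ) (hε : 0 < ε) :
    ∃ (T : Finset ((Fin n → ℝ) × (ℝ → ℝ))) (c M : ℝ → ℝ) (R0 : ℝ),
      Pool.Agent.W287.WR.Perman.Dat E ε T c M R0 := by
  classical
  set V : Finset (Fin n → ℝ) := E.image Prod.fst ∪ E.image Prod.snd with hV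
  have hV1 : ∀ e ∈ E, e.1 ∈ V := fun e he =>
    Finset.mem_union_left _ (Finset.mem_image_of_mem _ he)
  have hV2 : ∀ e ∈ E, e.2 ∈ V := fun e he =>
    Finset.mem_union_right _ (Finset.mem_image_of_mem _ he)
  obtain ⟨T, c, M, hc, hM, hc0, hT, hexh, ⟨Rb, hRb⟩, hdir⟩ :=
    hMain n ((V ×ˢ V).image fun q => q.1 - q.2)
  -- the constants
  set Z : Finset ℝ := (T ×ˢ E).image fun q => |dp q.1.1 q.2.2 - dp q.1.1 q.2.1| with hZ
  have hZm : ∀ p ∈ T, ∀ e ∈ E, |dp p.1 e.2 - dp p.1 e.1| ∈ Z := fun p hp e he =>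
    Finset.mem_image.2 ⟨(p, e), Finset.mem_product.2 ⟨hp, he⟩, rfl⟩
  obtain ⟨Cw, hCw⟩ := Finset.exists_le Z
  obtain ⟨cw, hcw, hcw'⟩ : ∃ cw : ℝ, 0 < cw ∧ ∀ z ∈ Z, z ≠ 0 → cw ≤ z := by
    have hZ0 : ∀ z ∈ Z, 0 ≤ z := by
      intro z hz
      obtain ⟨q, _, rfl⟩ := Finset.mem_image.1 hz
      exact abs_nonneg _
    by_cases h : (Z.erase 0).Nonempty
    · refine ⟨(Z.erase 0).min' h, ?_, fun z hz hz0 =>
        Finset.min'_le _ _ (Finset.mem_erase.2 ⟨hz0, hz⟩)⟩
      have h1 := Finset.min'_mem _ h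
      rw [Finset.mem_erase] at h1
      exact lt_of_le_of_ne (hZ0 _ h1.2) (Ne.symm h1.1)
    · refine ⟨1, one_pos, fun z hz hz0 => absurd ⟨z, Finset.mem_erase.2 ⟨hz0, hz⟩⟩ h⟩
  set δ : ℝ := (E.card : ℝ) * Cw / (ε ^ 2 * cw) with hδ
  have hδ' : (E.card : ℝ) * Cw / ε < Real.exp δ * ε * cw := by
    have h1 : δ < Real.exp δ := (lt_add_one δ).trans_le (Real.add_one_le_exp δ)
    have h2 : (E.card : ℝ) * Cw / ε = δ * ε * cw := by
      rw [hδ]
      field_simp
    rw [h2]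
    exact mul_lt_mul_of_pos_right (mul_lt_mul_of_pos_right h1 hε) hcw
  obtain ⟨g, hg⟩ : ∃ g, g = min (ε * cw) (Real.exp δ * ε * cw - (E.card : ℝ) * Cw / ε) := ⟨_, rfl⟩
  have hg0 : 0 < g := by
    rw [hg]
    exact lt_min (mul_pos hε hcw) (sub_pos.2 hδ')
  obtain ⟨Rd, hRd⟩ := hdir δ
  -- the main estimate
  have main : ∀ R, max Rb Rd ≤ R → ∀ x : Fin n → ℝ, ∀ k : (Fin n → ℝ) × (Fin n → ℝ) → ℝ,
      (∀ e ∈ E, ε ≤ k e ∧ k e ≤ 1 / ε) → ∀ p ∈ T,
      (∀ q ∈ T, ∑ j, q.1 j * x j - q.2 R ≤ ∑ j, p.1 j * x j - p.2 R) →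
      0 ≤ ∑ j, p.1 j * x j - p.2 R → ∑ j, p.1 j * x j - p.2 R ≤ c R →
      (∀ j, c R ≤ x j ∧ x j ≤ M R) ∧
      ((∃ e ∈ E, dp p.1 e.2 - dp p.1 e.1 ≠ 0) → ∃ e ∈ E, ∑ j, p.1 j * fld E k x j ≤
        -(mon e.1 x * g)) := by
    intro R hR x k hk p hp hmax h0 hc1
    have hb := hRb R ((le_max_left _ _).trans hR) x fun q hq => (hmax q hq).trans hc1
    refine ⟨hb, fun hne => ?_⟩
    have hx : ∀ j, 0 < x j := fun j => (hc0 R).trans_le (hb j).1
    rw [hg]
    refine key E hE ε hε p.1 x k hk hx δ Cw cw hcw (fun e he => hCw _ (hZm p hp e he))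
      (fun e he h => hcw' _ (hZm p hp e he) (abs_ne_zero.2 h)) (fun e he e' he' hlt => ?_) hne
    have h1 := hRd R ((le_max_right _ _).trans hR) x p hp hmax h0 hc1 (e'.1 - e.1)
      (Finset.mem_image.2 ⟨(e'.1, e.1), Finset.mem_product.2 ⟨hV1 e' he', hV1 e he⟩, rfl⟩) (by
        have := dp_sub p.1 e'.1 e.1
        unfold dp at this hlt
        rw [this]
        linarith)
    rw [mon_exp _ _ hx, mon_exp _ _ hx, ← Real.exp_add]
    refine Real.exp_le_exp.2 ?_
    have h2 : ∑ j, (e'.1 - e.1) j * Real.log (x j) =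
        ∑ j, e'.1 j * Real.log (x j) - ∑ j, e.1 j * Real.log (x j) := by
      rw [← Finset.sum_sub_distrib]
      exact Finset.sum_congr rfl fun j _ => by rw [Pi.sub_apply]; ring
    rw [h2] at h1
    linarith
  refine ⟨T, c, M, max Rb Rd, hc, hM, hc0, hT, hexh, fun R hR x h => hRb R
    ((le_max_left _ _).trans hR) x h, ?_, ?_⟩
  · intro R hR x k hk p hp hmax h0 hc1
    obtain ⟨hb, h1⟩ := main R hR x k hk p hp hmax h0 hc1
    by_cases hne : ∃ e ∈ E, dp p.1 e.2 - dp p.1 e.1 ≠ 0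
    · obtain ⟨e, he, h2⟩ := h1 hne
      have hx : ∀ j, 0 < x j := fun j => (hc0 R).trans_le (hb j).1
      have h3 := mul_pos (mon_pos e.1 x hx) hg0
      linarith
    · push Not at hne
      rw [dp_fld]
      exact (Finset.sum_eq_zero fun e he => by rw [hne e he, mul_zero]).le
  · intro R1 R2 hR1
    rcases lt_or_ge R2 R1 with h12 | h12
    · exact ⟨1, one_pos, fun R h1 h2 => absurd (h1.trans h2) (not_le.2 h12)⟩
    obtain ⟨r0, hr0, hmin⟩ := isCompact_Icc.exists_isMinOn (Set.nonempty_Icc.2 h12)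
      hc.continuousOn
    obtain ⟨r1, hr1, hmx⟩ := isCompact_Icc.exists_isMaxOn (Set.nonempty_Icc.2 h12)
      hM.continuousOn
    obtain ⟨Sg, hSg⟩ := Finset.exists_le (V.image fun s : Fin n → ℝ => ∑ i, |s i|)
    set Lg : ℝ := |Real.log (c r0)| + |Real.log (M r1)| with hLg
    refine ⟨Real.exp (-(Sg * Lg)) * g,
      mul_pos (Real.exp_pos _) hg0, ?_⟩
    intro R hRa hRb' x k hk p hp hne hmax h0 hc1
    obtain ⟨hb, h1⟩ := main R (hR1.trans hRa) x k hk p hp hmax h0 hc1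
    have hne' : ∃ e ∈ E, dp p.1 e.2 - dp p.1 e.1 ≠ 0 := by
      obtain ⟨e, he, h2⟩ := hne
      refine ⟨e, he, ?_⟩
      rw [← dp_sub]
      exact h2
    obtain ⟨e, he, h2⟩ := h1 hne'
    have hx : ∀ j, 0 < x j := fun j => (hc0 R).trans_le (hb j).1
    have hlog : ∀ j, |Real.log (x j)| ≤ Lg := by
      intro j
      have h3 : c r0 ≤ x j := (hmin ⟨hRa, hRb'⟩ : c r0 ≤ c R).trans (hb j).1
      have h4 : x j ≤ M r1 := (hb j).2.trans (hmx ⟨hRa, hRb'⟩ : M R ≤ M r1)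
      have h5 : Real.log (c r0) ≤ Real.log (x j) := Real.log_le_log (hc0 _) h3
      have h6 : Real.log (x j) ≤ Real.log (M r1) := Real.log_le_log (hx j) h4
      rw [abs_le]
      have h7 := neg_abs_le (Real.log (c r0))
      have h8 := le_abs_self (Real.log (M r1))
      have h9 := abs_nonneg (Real.log (c r0))
      have h10 := abs_nonneg (Real.log (M r1))
      constructor <;> linarith
    have hmon : Real.exp (-(Sg * Lg)) ≤ mon e.1 x := by
      rw [mon_exp _ _ hx]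
      refine Real.exp_le_exp.2 ?_
      have h3 : ∀ i, -(|e.1 i| * Lg) ≤ e.1 i * Real.log (x i) := by
        intro i
        have h4 : |e.1 i * Real.log (x i)| ≤ |e.1 i| * Lg := by
          rw [abs_mul]
          exact mul_le_mul_of_nonneg_left (hlog i) (abs_nonneg _)
        have h5 := neg_abs_le (e.1 i * Real.log (x i))
        linarith
      have h4 : -((∑ i, |e.1 i|) * Lg) ≤ ∑ i, e.1 i * Real.log (x i) := by
        rw [Finset.sum_mul, ← Finset.sum_neg_distrib]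
        exact Finset.sum_le_sum fun i _ => h3 i
      have h5 : ∑ i, |e.1 i| ≤ Sg := hSg _ (Finset.mem_image_of_mem _ (hV1 e he))
      have h6 : 0 ≤ Lg := by positivity
      have h7 := mul_le_mul_of_nonneg_right h5 h6
      linarith
    have h3 := mul_le_mul_of_nonneg_right hmon hg0.le
    linarith

end Pool.Agent.TH310.Endo
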