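import Pool.Agent.TH310.Endo
import Pool.Agent.W712.WR.All

/-!
Permanence and uniform bounds of variable-k endotactic systems, from the bodies of
`W712.WR.MainStm`.
-/

set_option autoImplicit false

namespace Pool.Agent.TH310.Endo

open Finset W712.WR Pool.Agent.W287.WR.Perman

variable {n : ℕ}

/-- permanence of endotactic systems -/
theorem perm_endo (E : Finset ((Fin n → ℝ) × (Fin n → ℝ))) (hE : EndoP E) (ε : ℝ) (hε : 0 < ε)
    (x₀ : Fin n → ℝ) (hx₀ : ∀ i, 0 < x₀ i) :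
    ∃ K : Set (Fin n → ℝ), IsCompact K ∧ K ⊆ cls E x₀ ∧
      ∀ (k : (Fin n → ℝ) × (Fin n → ℝ) → ℝ → ℝ), (∀ e ∈ E, Measurable (k e)) →
        (∀ e ∈ E, ∀ t : ℝ, ε ≤ k e t ∧ k e t ≤ 1 / ε) →
        ∀ z ∈ cls E x₀, ∃ y : ℝ → Fin n → ℝ, y 0 = z ∧ IsSol E k y (Set.Ici 0) ∧
          (∀ (J : Set ℝ) (x : ℝ → Fin n → ℝ), J.OrdConnected → (0 : ℝ) ∈ J → J ⊆ Set.Ici 0 →
            IsSol E k x J → x 0 = z → ∀ t ∈ J, x t = y t) ∧
          (∀ t, 0 ≤ t → y t ∈ cls E x₀) ∧ ∃ t₀ : ℝ, ∀ t, t₀ < t → y t ∈ K := by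
  obtain ⟨T, c, M, R0, D⟩ := field_endo main' E hE ε hε
  obtain ⟨R', hR'⟩ := D.exh x₀ hx₀
  set R1 := max R0 R' with hR1
  have hx₀' : ∀ R, R1 ≤ R → ∀ p ∈ T, ∑ j, p.1 j * x₀ j < p.2 R := fun R hR =>
    hR' R ((le_max_right _ _).trans hR)
  refine ⟨{z | z ∈ cls E x₀ ∧ ∀ p ∈ T, ∑ j, p.1 j * z j - p.2 R1 ≤ 0},
    compactK D x₀ R1 (le_max_left _ _), fun z hz => hz.1, ?_⟩
  intro k hm hk z hz
  obtain ⟨y, hy0, hy, hyu⟩ := exists_sol noExitAC' cara' uniq' hε D k hm hk z hz.1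
  refine ⟨y, hy0, hy, fun J x hJ h0J hJ0 hx hx0 t ht => (hyu J x hJ h0J hJ0 hx hx0 t ht).symm,
    fun t ht => ?_, ?_⟩
  · exact in_cls x₀ k (Set.Ici 0) Set.ordConnected_Ici (Set.mem_Ici.2 le_rfl) le_rfl y hy
      (by rw [hy0]; exact hz) t ht
  · obtain ⟨t₀, _, h⟩ := absorb noExitAC' D x₀ k hk R1 (le_max_left _ _) hx₀' y hy
      (by rw [hy0]; exact hz)
    exact ⟨t₀, h⟩

/-- uniform two-sided bounds of endotactic systems -/
theorem bounds_endo (E : Finset ((Fin n → ℝ) × (Fin n → ℝ))) (hE : EndoP E) (ε : ℝ) (hε : 0 < ε)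
    (m K : ℝ) (hm : 0 < m) :
    ∃ m' M' : ℝ, 0 < m' ∧
      ∀ (k : (Fin n → ℝ) × (Fin n → ℝ) → ℝ → ℝ), (∀ e ∈ E, Measurable (k e)) →
        (∀ e ∈ E, ∀ t : ℝ, ε ≤ k e t ∧ k e t ≤ 1 / ε) →
        ∀ z : Fin n → ℝ, (∀ i, m ≤ z i ∧ z i ≤ K) →
          ∃ y : ℝ → Fin n → ℝ, y 0 = z ∧ IsSol E k y (Set.Ici 0) ∧
          (∀ t, 0 ≤ t → ∀ i, m' ≤ y t i ∧ y t i ≤ M') ∧
          (∀ (J : Set ℝ) (x : ℝ → Fin n → ℝ), J.OrdConnected → (0 : ℝ) ∈ J → J ⊆ Set.Ici 0 →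
            IsSol E k x J → x 0 = z → ∀ t ∈ J, x t = y t) := by
  classical
  obtain ⟨T, c, M, R0, D⟩ := field_endo main' E hE ε hε
  by_cases hmK : m ≤ K
  swap
  · refine ⟨1, 1, one_pos, ?_⟩
    intro k hmk hk z hz
    rcases Nat.eq_zero_or_pos n with hn | hn
    · subst hn
      obtain ⟨y, hy0, hy, hyu⟩ := exists_sol noExitAC' cara' uniq' hε D k hmk hk z
        (fun i => i.elim0)
      exact ⟨y, hy0, hy, fun t _ i => i.elim0,
        fun J x hJ h0J hJ0 hx hx0 t ht => (hyu J x hJ h0J hJ0 hx hx0 t ht).symm⟩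
    · exact absurd ((hz ⟨0, hn⟩).1.trans (hz ⟨0, hn⟩).2) hmK
  -- vertices of the box
  let vert : Finset (Fin n) → Fin n → ℝ := fun A j => if j ∈ A then K else m
  have hvert : ∀ A j, 0 < vert A j := by
    intro A j
    simp only [vert]
    split_ifs <;> linarith
  choose R1 hR1 using fun A : Finset (Fin n) => D.exh (vert A) (hvert A)
  set R := max R0 (Finset.univ.sup' ⟨∅, Finset.mem_univ _⟩ R1) with hRdef
  have hR0R : R0 ≤ R := le_max_left _ _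
  have hR1R : ∀ A, R1 A ≤ R := fun A =>
    (Finset.le_sup' R1 (Finset.mem_univ A)).trans (le_max_right _ _)
  have hstart : ∀ z : Fin n → ℝ, (∀ i, m ≤ z i ∧ z i ≤ K) → ∀ p ∈ T,
      ∑ j, p.1 j * z j < p.2 R := by
    intro z hz p hp
    refine lt_of_le_of_lt ?_ (hR1 (Finset.univ.filter fun j => 0 ≤ p.1 j) R (hR1R _) p hp)
    apply Finset.sum_le_sum
    intro j _
    simp only [vert, Finset.mem_filter, Finset.mem_univ, true_and]
    split_ifs with h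
    · exact mul_le_mul_of_nonneg_left (hz j).2 h
    · exact mul_le_mul_of_nonpos_left (hz j).1 (not_le.1 h).le
  refine ⟨c R, M R, D.cpos R, ?_⟩
  intro k hmk hk z hz
  obtain ⟨y, hy0, hy, hyu⟩ := exists_sol noExitAC' cara' uniq' hε D k hmk hk z
    (fun i => hm.trans_le (hz i).1)
  refine ⟨y, hy0, hy, ?_,
    fun J x hJ h0J hJ0 hx hx0 t ht => (hyu J x hJ h0J hJ0 hx hx0 t ht).symm⟩
  intro t ht
  have key : ∀ p ∈ T, ∑ j, p.1 j * y t j - p.2 R ≤ 0 := by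
    refine stay noExitAC' D k hk R hR0R y (fun s => fld E (fun e => k e s) (y s)) 0 t ht
      (hy.ac 0 (Set.mem_Ici.2 le_rfl) t ht ht) ?_ (fun s _ => rfl) ?_ t ⟨ht, le_rfl⟩
    · filter_upwards [hy.ode] with s hs hsm
      exact hs hsm.1
    · intro p hp
      have := hstart z hz p hp
      rw [hy0]
      linarith
  exact D.bnd R hR0R (y t) (fun p hp => (key p hp).trans (D.cpos R).le)

/-- the endotactic condition in its usual form -/
theorem EndoP_of (E : Finset ((Fin n → ℝ) × (Fin n → ℝ)))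
    (hE : ∀ w : Fin n → ℝ, ∀ e ∈ E, ∑ j, w j * (e.2 j - e.1 j) < 0 →
      ∃ e' ∈ E, 0 < ∑ j, w j * (e'.2 j - e'.1 j) ∧ ∑ j, w j * e'.1 j < ∑ j, w j * e.1 j) :
    EndoP E := by
  intro w e he hlt
  have h1 : ∀ s : Fin n → ℝ, ∑ j, (-w) j * s j = -Pool.Agent.W368.WR.dp w s := by
    intro s
    unfold Pool.Agent.W368.WR.dp
    rw [← Finset.sum_neg_distrib]
    exact Finset.sum_congr rfl fun j _ => by rw [Pi.neg_apply]; ring
  have h2 : ∀ s t : Fin n → ℝ, ∑ j, (-w) j * (s j - t j) =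
      -Pool.Agent.W368.WR.dp w s + Pool.Agent.W368.WR.dp w t := by
    intro s t
    have : ∑ j, (-w) j * (s j - t j) = ∑ j, (-w) j * s j - ∑ j, (-w) j * t j := by
      rw [← Finset.sum_sub_distrib]
      exact Finset.sum_congr rfl fun j _ => by ring
    rw [this, h1, h1]
    ring
  obtain ⟨e', he', h3, h4⟩ := hE (-w) e he (by rw [h2]; linarith)
  rw [h2] at h3
  rw [h1, h1] at h4
  exact ⟨e', he', by linarith, by linarith⟩

end Pool.Agent.TH310.Endo
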